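import Pool.Agent.Q8.TZ.Main

/-!
# Maximizers of the Toeplitz mini-max ratio

Every maximizer of the ratio (sup norm of an alternating step function) / (norm of its Toeplitz
matrix) of size `N + 1` has order exactly `N`.
-/

open MeasureTheory

namespace Pool.Agent.Results.MP_bc6ece_an.FullOrder

/-- The Fourier coefficient of a function on the circle (functions of the angle in `[0, 2π)`). -/
noncomputable def coeff (f : ℝ → ℂ) (k : ℤ) : ℂ :=
  (1 / (2 * (Real.pi : ℂ))) *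
    ∫ t in (0 : ℝ)..(2 * Real.pi), f t * Complex.exp (-((k : ℂ) * (t * Complex.I)))

/-- The Toeplitz matrix of size `N + 1` of `f`. -/
noncomputable def toeplitz (N : ℕ) (f : ℝ → ℂ) : Matrix (Fin (N + 1)) (Fin (N + 1)) ℂ :=
  Matrix.of fun j k => coeff f ((j : ℤ) - (k : ℤ))

/-- The operator norm for the Euclidean norm. -/
noncomputable def opNorm {N : ℕ} (A : Matrix (Fin (N + 1)) (Fin (N + 1)) ℂ) : ℝ :=
  ‖Matrix.toEuclideanCLM (n := Fin (N + 1)) (𝕜 := ℂ) A‖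

/-- `A` is a Toeplitz matrix. -/
def IsToeplitz {N : ℕ} (A : Matrix (Fin (N + 1)) (Fin (N + 1)) ℂ) : Prop :=
  ∃ a : ℤ → ℂ, ∀ j k, A j k = a ((j : ℤ) - (k : ℤ))

/-- `c_A`: the least bound of a bounded measurable function with Toeplitz matrix `A`. -/
noncomputable def leastBound {N : ℕ} (A : Matrix (Fin (N + 1)) (Fin (N + 1)) ℂ) : ℝ :=
  sInf {C : ℝ | 0 ≤ C ∧ ∃ f : ℝ → ℂ, Measurable f ∧ (∀ s, ‖f s‖ ≤ C) ∧ toeplitz N f = A}

/-- The ratios `c_A / ‖A‖` of the nonzero self-adjoint Toeplitz matrices. -/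
def ratios (N : ℕ) : Set ℝ :=
  {r | ∃ A : Matrix (Fin (N + 1)) (Fin (N + 1)) ℂ, A ≠ 0 ∧ A.IsHermitian ∧ IsToeplitz A ∧
    r = leastBound A / opNorm A}

/-- `c_N`. -/
noncomputable def maxRatio (N : ℕ) : ℝ := sSup (ratios N)

/-- `ψ` is (almost everywhere on `[0, 2π)`) an alternating step function of height `c` and order `n`:
it has the values `c` and `-c` alternately on the `2 n` arcs with end points `t j`. -/
def IsAlternatingStep (c : ℝ) (n : ℕ) (ψ : ℝ → ℂ) : Prop :=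
  0 < c ∧ ∃ (t : Fin (2 * n) → ℝ) (ε : ℝ), (ε = 1 ∨ ε = -1) ∧ StrictMono t ∧
    (∀ j, t j ∈ Set.Ico 0 (2 * Real.pi)) ∧
    ∀ᵐ s ∂(volume.restrict (Set.Ico 0 (2 * Real.pi))),
      ψ s = ((ε * c * (-1) ^ (Finset.univ.filter fun j => t j ≤ s).card : ℝ) : ℂ)

/-- `ψ` is a maximizer of order `n`. -/
def IsMaximizer (N n : ℕ) (ψ : ℝ → ℂ) : Prop :=
  n ≤ N ∧ ∃ c : ℝ, IsAlternatingStep c n ψ ∧ c / opNorm (toeplitz N ψ) = maxRatio N

theorem result :
    (∀ N : ℕ, BddAbove (ratios N) ∧ 1 ≤ maxRatio N) ∧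
    ∀ N : ℕ, 1 ≤ N → ∀ (n : ℕ) (ψ : ℝ → ℂ), IsMaximizer N n ψ → n = N := by
  refine ⟨fun N => ⟨Q8.TZ.ratios_bdd N, Q8.TZ.one_le_cMax N⟩, ?_⟩
  rintro N - n ψ ⟨hn, c, ⟨hc, t, ε, hε, -, ht, hψ⟩, hmax⟩
  refine Q8.TZ.main N n hn c ε hc hε t ht ?_
  have e : toeplitz N ψ = Q8.TZ.toep N (fun s => (Q8.TZ.stp n c ε t s : ℂ)) := by
    ext j k
    simp only [toeplitz, Q8.TZ.toep, Matrix.of_apply, coeff, Q8.TZ.fc]
    congr 1
    have hpi : (0 : ℝ) ≤ 2 * Real.pi := by positivity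
    rw [intervalIntegral.integral_of_le hpi, intervalIntegral.integral_of_le hpi]
    rw [Measure.restrict_congr_set Ico_ae_eq_Ioc] at hψ
    apply integral_congr_ae
    filter_upwards [hψ] with s hs
    rw [hs]
    rfl
  rw [← e]
  exact hmax

end Pool.Agent.Results.MP_bc6ece_an.FullOrder
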